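import Pool.Agent.Y520.AS.Stm

/-!
# AS-HESS: interior estimate of second derivatives with advection
-/

set_option autoImplicit false

open MeasureTheory Set Filter Topology Laplacian InnerProductSpace

namespace Pool.Agent.Y429.AS

open Pool.Agent.H947R3 Pool.Agent.Y520.AR Pool.Agent.Y520.AS

variable {n : ℕ}

lemma norm_bv (j : Fin n) : ‖(bv j : E n)‖ = 1 := by
  rw [bv_eq]
  simp

/-- the derivative of the difference quotient -/
lemma fderiv_quot {w : E n → ℝ} {j : Fin n} {h : ℝ} {y : E n}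
    (hy1 : DifferentiableAt ℝ w y) (hy2 : DifferentiableAt ℝ w (y + h • bv j)) :
    fderiv ℝ (fun y => h⁻¹ * (w (y + h • bv j) - w y)) y =
      h⁻¹ • (fderiv ℝ w (y + h • bv j) - fderiv ℝ w y) := by
  have hy3 : DifferentiableAt ℝ (fun y => w (y + h • bv j)) y :=
    hy2.comp y (differentiableAt_id.add (differentiableAt_const _))
  have h6 := ((hy3.hasFDerivAt.sub hy1.hasFDerivAt).const_mul h⁻¹)
  have h7 : fderiv ℝ (fun y => h⁻¹ * (w (y + h • bv j) - w y)) y =
      h⁻¹ • (fderiv ℝ (fun y => w (y + h • bv j)) y - fderiv ℝ w y) := h6.fderiv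
  rw [h7, fderiv_comp_add_right]

/-- the Laplacian of the difference quotient -/
lemma lap_quot {w : E n → ℝ} {j : Fin n} {h : ℝ} {y : E n}
    (hy1 : ContDiffAt ℝ 2 w y) (hy2 : ContDiffAt ℝ 2 w (y + h • bv j)) :
    Δ (fun y => h⁻¹ * (w (y + h • bv j) - w y)) y = h⁻¹ * (Δ w (y + h • bv j) - Δ w y) := by
  have hy3 : ContDiffAt ℝ 2 (fun y => w (y + h • bv j)) y :=
    hy2.comp y (contDiffAt_id.add contDiffAt_const)
  have h4 : (fun y => h⁻¹ * (w (y + h • bv j) - w y)) =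
      (h⁻¹ : ℝ) • ((fun y => w (y + h • bv j)) - w) := by
    funext z
    simp
  have hsub : ContDiffAt ℝ 2 ((fun y => w (y + h • bv j)) - w) y := hy3.sub hy1
  rw [h4, laplacian_smul _ hsub, hy3.laplacian_sub hy1, lap_comp_add hy2, smul_eq_mul]

theorem t_HESS (hG : S_GRAD) : S_HESS := by
  intro n B R hB hR
  obtain ⟨C1, hC1, hgrad⟩ := hG n B R hB hR
  refine ⟨C1 * (1 + (n + 1) * B), by positivity, ?_⟩
  intro U w G c x₀ M N hU hw hc hGc hQ hcB heq hM hN x hx i j
  have hR2 : R ≤ 2 * R := by linarith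
  have hRh : R / 2 ≤ 2 * R := by linarith
  have hM0 : 0 ≤ M := (abs_nonneg _).trans (hM x (QQ_mono hRh hx) i)
  have hN0 : 0 ≤ N := (abs_nonneg _).trans (hN x (QQ_mono hRh hx) i)
  have hxU : x ∈ U := hQ (QQ_mono hRh hx)
  have hwd : ∀ y ∈ QQ x₀ (2 * R), DifferentiableAt ℝ w y := fun y hy =>
    (hw.contDiffAt (hU.mem_nhds (hQ hy))).differentiableAt (by norm_num)
  have hGd : ∀ y ∈ QQ x₀ (2 * R), DifferentiableAt ℝ G y := fun y hy =>
    (hGc.contDiffAt (hU.mem_nhds (hQ hy))).differentiableAt (by norm_num)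
  have hcd : ∀ y ∈ QQ x₀ (2 * R), DifferentiableAt ℝ c y := fun y hy =>
    (hc.contDiffAt (hU.mem_nhds (hQ hy))).differentiableAt (by norm_num)
  have hpd : DifferentiableAt ℝ (pd w i) (x + (0 : ℝ) • bv j) := by
    have h1 : DifferentiableAt ℝ (pd w i) x :=
      ((contDiffOn_one_pd hU hw i).contDiffAt (hU.mem_nhds hxU)).differentiableAt (by norm_num)
    simpa using h1
  have hlim := (line_deriv hpd).tendsto_slope_zero_right
  have hlim2 := hlim.abs
  have hz : x + (0 : ℝ) • bv j = x := by simp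
  rw [hz] at hlim2
  apply le_of_tendsto hlim2
  filter_upwards [Ioo_mem_nhdsGT hR] with h hh
  have hsh : ∀ y ∈ QQ x₀ R, y + h • bv j ∈ QQ x₀ (2 * R) := fun y hy =>
    shift_mem hy hh.1.le hh.2.le j
  obtain ⟨U', hU'⟩ : ∃ U' : Set (E n), U' = U ∩ (fun y => y + h • bv j) ⁻¹' U := ⟨_, rfl⟩
  have hU'o : IsOpen U' := by
    rw [hU']
    exact hU.inter (hU.preimage (by fun_prop))
  have hQU' : QQ x₀ R ⊆ U' := fun y hy => by
    rw [hU']
    exact ⟨hQ (QQ_mono hR2 hy), hQ (hsh y hy)⟩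
  have hwc : ContDiffOn ℝ 2 (fun y => h⁻¹ * (w (y + h • bv j) - w y)) U' := by
    rw [hU']
    apply contDiffOn_const.mul
    apply ContDiffOn.sub _ (hw.mono inter_subset_left)
    exact hw.comp (contDiff_id.add contDiff_const).contDiffOn inter_subset_right
  have e1 : ∀ y ∈ QQ x₀ R, |h⁻¹ * (w (y + h • bv j) - w y)| ≤ M := by
    intro y hy
    have := shift_diff_le (v := w) (M := M) (j := j) hwd (fun z hz => hM z hz j) hy
      hh.1.le hh.2.le
    rw [abs_mul, abs_of_pos (inv_pos.2 hh.1), inv_mul_le_iff₀ hh.1]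
    linarith
  have e2 : ∀ y ∈ QQ x₀ R, |-(Δ (fun y => h⁻¹ * (w (y + h • bv j) - w y)) y) +
      fderiv ℝ (fun y => h⁻¹ * (w (y + h • bv j) - w y)) y (c y)| ≤ N + (n + 1) * M * B := by
    intro y hy
    have hy0 : y ∈ QQ x₀ (2 * R) := QQ_mono hR2 hy
    have hy1 : ContDiffAt ℝ 2 w y := hw.contDiffAt (hU.mem_nhds (hQ hy0))
    have hy2 : ContDiffAt ℝ 2 w (y + h • bv j) := hw.contDiffAt (hU.mem_nhds (hQ (hsh y hy)))
    have q1 := heq y (hQ hy0)
    have q2 := heq (y + h • bv j) (hQ (hsh y hy))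
    have q3 : -(Δ (fun y => h⁻¹ * (w (y + h • bv j) - w y)) y) +
        fderiv ℝ (fun y => h⁻¹ * (w (y + h • bv j) - w y)) y (c y) =
        h⁻¹ * ((G (y + h • bv j) - G y) -
          fderiv ℝ w (y + h • bv j) (c (y + h • bv j) - c y)) := by
      rw [lap_quot hy1 hy2, fderiv_quot (hwd y hy0) (hwd _ (hsh y hy)), ← q1, ← q2, map_sub]
      simp only [smul_apply, sub_apply, smul_eq_mul]
      ring
    have g1 : |G (y + h • bv j) - G y| ≤ N * h :=
      shift_diff_le (v := G) (M := N) (j := j) hGd (fun z hz => hN z hz j) hy hh.1.le hh.2.le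
    have g2 : ‖c (y + h • bv j) - c y‖ ≤ B * h := by
      have h1 := Convex.norm_image_sub_le_of_norm_fderiv_le (𝕜 := ℝ) hcd
        (fun z hz => (hcB z hz).2) (convex_QQ x₀ (2 * R)) hy0 (hsh y hy)
      have h2 : ‖y + h • bv j - y‖ = h := by
        rw [add_sub_cancel_left, norm_smul, norm_bv, mul_one, Real.norm_eq_abs, abs_of_pos hh.1]
      rw [h2] at h1
      exact h1
    have g3 : ‖fderiv ℝ w (y + h • bv j)‖ ≤ (n + 1) * M :=
      norm_fderiv_le_of_pd hM0 fun k => hM _ (hsh y hy) k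
    have g4 : |fderiv ℝ w (y + h • bv j) (c (y + h • bv j) - c y)| ≤ (n + 1) * M * (B * h) := by
      rw [← Real.norm_eq_abs]
      refine ((fderiv ℝ w (y + h • bv j)).le_opNorm _).trans ?_
      exact mul_le_mul g3 g2 (norm_nonneg _) (by positivity)
    rw [q3, abs_mul, abs_of_pos (inv_pos.2 hh.1), inv_mul_le_iff₀ hh.1]
    have g5 := abs_sub (G (y + h • bv j) - G y)
      (fderiv ℝ w (y + h • bv j) (c (y + h • bv j) - c y))
    calc |G (y + h • bv j) - G y - fderiv ℝ w (y + h • bv j) (c (y + h • bv j) - c y)|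
        ≤ N * h + (n + 1) * M * (B * h) := by linarith
      _ = h * (N + (n + 1) * M * B) := by ring
  have key := hgrad U' (fun y => h⁻¹ * (w (y + h • bv j) - w y)) c x₀ M (N + (n + 1) * M * B)
    hU'o hwc hQU' (fun y hy => (hcB y (QQ_mono hR2 hy)).1) e1 e2 x hx i
  have hxR : x ∈ QQ x₀ R := QQ_mono (by linarith) hx
  have h5 : pd (fun y => h⁻¹ * (w (y + h • bv j) - w y)) i x =
      h⁻¹ * (pd w i (x + h • bv j) - pd w i x) := by
    unfold pd
    rw [fderiv_quot (hwd x (QQ_mono hR2 hxR)) (hwd _ (hsh x hxR))]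
    simp
  rw [h5] at key
  have h6 : C1 * (M + (N + (n + 1) * M * B)) ≤ C1 * (1 + (n + 1) * B) * (M + N) := by
    have h7 : M + (N + (n + 1) * M * B) ≤ (1 + (n + 1) * B) * (M + N) := by
      have : 0 ≤ ((n : ℝ) + 1) * B * N := by positivity
      nlinarith
    have h8 := mul_le_mul_of_nonneg_left h7 hC1
    rw [← mul_assoc] at h8
    exact h8
  refine le_trans ?_ (key.trans h6)
  simp

end Pool.Agent.Y429.AS
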